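import Pool.Agent.Lib_helper68.SEL.K12

/-! SEL, helper for D1 and D3: the quadratic form of a finite family of series. -/

namespace Pool.Agent.SEL

open Complex MeasureTheory Filter Topology Pool.Agent.GL2

theorem sel_dq_pair {μ μ' : ℕ} (hμ : 0 < μ) (hμ' : 0 < μ') {f g : ℕ → ℝ}
    (hf : Summable fun n => |f n|) (hg : Summable fun n => |g n|) :
    HasSum (fun R : ℕ => (if μ ∣ R then f (R / μ) else 0) * (if μ' ∣ R then g (R / μ') else 0))
      (∑' v : ℕ × ℕ, if v.1 * μ = v.2 * μ' then f v.1 * g v.2 else 0) := by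
  have hs : Summable fun v : ℕ × ℕ => if v.1 * μ = v.2 * μ' then f v.1 * g v.2 else 0 := by
    refine Summable.of_norm_bounded (hf.mul_of_nonneg hg (fun _ => abs_nonneg _)
      (fun _ => abs_nonneg _)) (fun v => ?_)
    split_ifs
    · rw [norm_mul]; exact le_rfl
    · rw [norm_zero]; positivity
  refine (hasSum_iff_hasSum_of_ne_zero_bij
    (f := fun v : ℕ × ℕ => if v.1 * μ = v.2 * μ' then f v.1 * g v.2 else 0)
    (fun R : Function.support (fun R : ℕ => (if μ ∣ R then f (R / μ) else 0) *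
      (if μ' ∣ R then g (R / μ') else 0)) => ((R : ℕ) / μ, (R : ℕ) / μ')) ?_ ?_ ?_).1 hs.hasSum
  · intro R R' h
    have h1 : μ ∣ (R : ℕ) := by
      by_contra h1
      exact R.2 (by simp only [if_neg h1, zero_mul])
    have h2 : μ ∣ (R' : ℕ) := by
      by_contra h1
      exact R'.2 (by simp only [if_neg h1, zero_mul])
    have h3 := (Prod.mk.inj h).1
    apply Subtype.ext
    rw [← Nat.div_mul_cancel h1, ← Nat.div_mul_cancel h2, h3]
  · intro v hv
    have hc : v.1 * μ = v.2 * μ' := by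
      by_contra h
      exact hv (if_neg h)
    have hv' : f v.1 * g v.2 ≠ 0 := by
      intro h
      apply hv
      simp only [if_pos hc, h]
    refine ⟨⟨v.1 * μ, ?_⟩, ?_⟩
    · rw [Function.mem_support, if_pos (Dvd.intro_left _ rfl), Nat.mul_div_cancel _ hμ,
        if_pos (by rw [hc]; exact Dvd.intro_left _ rfl), hc, Nat.mul_div_cancel _ hμ']
      exact hv'
    · simp only
      rw [Nat.mul_div_cancel _ hμ]
      conv_lhs => rw [hc, Nat.mul_div_cancel _ hμ']
  · intro R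
    have h1 : μ ∣ (R : ℕ) := by
      by_contra h1
      exact R.2 (by simp only [if_neg h1, zero_mul])
    have h2 : μ' ∣ (R : ℕ) := by
      by_contra h1
      exact R.2 (by simp only [if_neg h1, mul_zero])
    simp only
    rw [Nat.div_mul_cancel h1, Nat.div_mul_cancel h2, if_pos rfl, if_pos h1, if_pos h2]

theorem sel_dq_quad {ι : Type*} (J : Finset ι) (μ : ι → ℕ) (hμ : ∀ j ∈ J, 0 < μ j)
    (f : ι → ℕ → ℝ) (hf : ∀ j ∈ J, Summable fun n => |f j n|) :
    HasSum (fun R : ℕ => (∑ j ∈ J, if μ j ∣ R then f j (R / μ j) else 0) ^ 2)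
      (∑ j ∈ J, ∑ j' ∈ J, ∑' v : ℕ × ℕ, if v.1 * μ j = v.2 * μ j' then f j v.1 * f j' v.2 else 0) := by
  have h1 : ∀ j ∈ J, HasSum (fun R : ℕ => ∑ j' ∈ J, (if μ j ∣ R then f j (R / μ j) else 0) *
      (if μ j' ∣ R then f j' (R / μ j') else 0))
      (∑ j' ∈ J, ∑' v : ℕ × ℕ, if v.1 * μ j = v.2 * μ j' then f j v.1 * f j' v.2 else 0) :=
    fun j hj => hasSum_sum fun j' hj' => sel_dq_pair (hμ j hj) (hμ j' hj') (hf j hj) (hf j' hj')
  have e : (fun R : ℕ => (∑ j ∈ J, if μ j ∣ R then f j (R / μ j) else 0) ^ 2) =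
      fun R : ℕ => ∑ j ∈ J, ∑ j' ∈ J, (if μ j ∣ R then f j (R / μ j) else 0) *
      (if μ j' ∣ R then f j' (R / μ j') else 0) := by
    funext R
    rw [pow_two, Finset.sum_mul_sum]
  rw [e]
  exact hasSum_sum h1

end Pool.Agent.SEL
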